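import Mathlib
import Pool.Agent.Helper93.QG.DualGrowth
import Pool.Agent.Helper93.QG.TorusGrowth

/-! Polynomial growth is not detected by the diagonal tori. -/

namespace Pool.Agent.Results.MP_75cd78_al.ToralGrowth

open Pool.Agent.Helper93.QG

/-- There is a closed subgroup `G ⊂ U_4^+` all of whose diagonal tori `Γ_Q`, `Q ∈ U_4`, have
polynomial growth, while the dual of `G` does not have polynomial growth. -/
theorem result :
    ∃ G : ClosedSubgroup 4,
      (∀ Q : Matrix.unitaryGroup (Fin 4) ℂ, G.TorusPolynomialGrowth Q) ∧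
        ¬ G.DualPolynomialGrowth :=
  ⟨GG, torus_growth, not_dual_growth⟩

end Pool.Agent.Results.MP_75cd78_al.ToralGrowth
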